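import Pool.Agent.H38.OD.Nf

/-!
MP_78d38b_GN (helper38), section 2 (freeness): definitions.
-/

set_option autoImplicit false
set_option linter.unusedSectionVars false
open scoped Classical

open WithZero NumberField IsDedekindDomain H38RT
open H38T1 (SC sc scu rep eo la si Pri OddP tp unif)
open H76PP H73P2 H36CY H73CY H73ZO H30ZO

namespace H38GN

/-- The class of `ev θ e` over the field `k`: the local conditions at the places above `Sg` and the real places, even
outside `Sg` and `T`. -/
structure RelY (K : Type) {k : Type} (L : Type) [Field K] [NumberField K] [Field k] [NumberField k]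
    [Field L] [NumberField L] [Algebra K k] [Algebra k L]
    (Sg T : Finset (HeightOneSpectrum (𝓞 K))) (a b : K) (θ : L) (e : Fin 3 → k) : Prop where
  ne : ev θ e ≠ 0
  sq : IsSquare (Algebra.norm k (ev θ e))
  even : ∀ w : HeightOneSpectrum (𝓞 L), dn K (dn k w) ∉ Sg → dn K (dn k w) ∉ T →
    eo w (sc (ev θ e)) = 0
  sg : ∀ u : HeightOneSpectrum (𝓞 k), dn K u ∈ Sg →
    LC (algebraMap k (u.adicCompletion k)) (algebraMap K k a) (algebraMap K k b) e
  real : ∀ s : k →+* ℝ, LC s (algebraMap K k a) (algebraMap K k b) e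

/-- The local hypotheses. -/
structure HY (K N : Type) [Field K] [NumberField K] [Field N] [NumberField N] [Algebra K N]
    (Sg : Finset (HeightOneSpectrum (𝓞 K))) (a b : K) : Prop where
  two : ∀ v : HeightOneSpectrum (𝓞 K), v.valuation K 2 < 1 → v ∈ Sg
  dne : 4 * a ^ 3 + 27 * b ^ 2 ≠ 0
  real : RealAt K N a b
  ram : ∀ V : HeightOneSpectrum (𝓞 N), dn K V ∉ Sg → ¬ Ram K V
  desc : ∀ v ∈ Sg, DescAt K N v a b

end H38GN
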