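import Pool.Agent.H38.GN.Df

/-!
MP_78d38b_GN (helper38), section 2: descent of the conditions in a quadratic step (modification of `relS_down`).
-/

set_option autoImplicit false
set_option linter.unusedSectionVars false
open scoped Classical

open WithZero NumberField IsDedekindDomain H38RT
open H38T1 (SC sc scu rep eo la si Pri OddP tp unif)
open H76PP H73P2 H36CY H73CY H73ZO H30ZO

namespace H38GN

variable {K k L k' L' N : Type} [Field K] [NumberField K] [Field k] [NumberField k] [Field L]
  [NumberField L] [Field k'] [NumberField k'] [Field L'] [NumberField L'] [Field N] [NumberField N]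
  [Algebra K k] [Algebra K k'] [Algebra k k'] [Algebra k L] [Algebra L L'] [Algebra k' L']
  [Algebra k L'] [IsScalarTower K k k'] [IsScalarTower k L L'] [IsScalarTower k k' L']
  [Algebra K N] [Algebra k N] [Algebra k' N] [IsScalarTower K k N] [IsScalarTower K k' N]
  [IsScalarTower k k' N]

theorem relY_down {Sg T : Finset (HeightOneSpectrum (𝓞 K))} {a b : K} (H : HY K N Sg a b)
    {θ : L} {θ' : L'} (Q : QS k L k' L' (algebraMap K k a) (algebraMap K k b) θ θ')
    (f2 : Module.finrank L L' = 2) {e : Fin 3 → k} (hne : ev θ e ≠ 0)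
    (hsq : IsSquare (Algebra.norm k (ev θ e)))
    (hev : ∀ w' : HeightOneSpectrum (𝓞 L'), dn K (dn k' w') ∉ Sg → dn K (dn k' w') ∉ T →
      eo w' (sc (algebraMap L L' (ev θ e))) = 0)
    (hsg : ∀ u : HeightOneSpectrum (𝓞 k'), dn K u ∈ Sg →
      LC (algebraMap k' (u.adicCompletion k')) (algebraMap K k' a) (algebraMap K k' b)
        (fun i => algebraMap k k' (e i)))
    (hre : ∀ s : k' →+* ℝ, LC s (algebraMap K k' a) (algebraMap K k' b)
      (fun i => algebraMap k k' (e i))) : RelY K L Sg T a b θ e := by
  have hab : ∀ x : K, algebraMap K k' x = algebraMap k k' (algebraMap K k x) :=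
    IsScalarTower.algebraMap_apply K k k'
  have hTe : Te_nf (algebraMap K k a) (algebraMap K k b) e = Algebra.norm k (ev θ e) :=
    (Te_norm Q.cub e).symm
  refine ⟨hne, hsq, ?_, ?_, ?_⟩
  · intro w hwg hwt
    obtain ⟨V, hV⟩ := exists_above (L := N) (dn k w)
    have hKV : dn K V = dn K (dn k w) := by
      rw [← hV]
      exact (H73P2.dn_dn V).symm
    have hw2 : w.valuation L 2 = 1 := val2_up (K := k) (val2_up (K := K) (odd_of H.two hwg))
    obtain ⟨h1, -⟩ := unram_mid (k := k) (H.ram V (by rw [hKV]; exact hwg))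
    obtain ⟨D, ρ, hρ, hρk, hD⟩ := exists_gen (k' := k') Q.two h1
    rw [hV] at hD
    refine even_unram Q f2 w hw2 hρ hρk hD hne fun w' hw' => hev w' ?_ ?_
    · rw [← dn_sq (k := k) (L := L), hw']
      exact hwg
    · rw [← dn_sq (k := k) (L := L), hw']
      exact hwt
  · intro u hu
    refine H.desc (dn K u) hu k k' Q.two e ?_ ?_ (fun u' hu' => hsg u' (by rw [hu']; exact hu)) u rfl
    · rw [hTe, Ne, Algebra.norm_eq_zero_iff]
      exact hne
    · rw [hTe]
      exact hsq
  · intro s
    rcases H.real k k' Q.two s with h | h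
    · refine LC_real s ?_ ?_
      · simpa only [map_add, map_mul, map_pow, map_ofNat] using h
      · have h1 := Te_norm Q.cub e
        rw [← h1]
        obtain ⟨c, hc⟩ := hsq
        have h2 : Algebra.norm k (ev θ e) ≠ 0 := by
          rw [Ne, Algebra.norm_eq_zero_iff]
          exact hne
        rw [hc] at h2 ⊢
        rw [map_mul]
        have h3 : s c ≠ 0 := (map_ne_zero s).2 (left_ne_zero_of_mul h2)
        exact mul_self_pos.2 h3
    · obtain ⟨s', hs'⟩ := h
      have h1 := hre s'
      unfold LC at h1 ⊢
      simp only [hab, hs'] at h1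
      exact h1

end H38GN
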